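import Pool.Agent.Lib.MP_0b6b0e_gt.ZB.Defs

/-!
# Gauge basics (module GB)
-/

set_option autoImplicit false

open Set Filter Topology MeasureTheory

open scoped Pointwise

namespace Pool.Agent.Lib.MP_0b6b0e_gt.ZB.H87

open Pool.Agent.Lib.MP_0b6b0e_gt.ZB

variable {n : ℕ}

theorem nhds_zero (K : Body n) : (K.1 : Set (EuclideanSpace ℝ (Fin n))) ∈ 𝓝 0 :=
  mem_interior_iff_mem_nhds.1 K.2

theorem absorbent (K : Body n) : Absorbent ℝ (K.1 : Set (EuclideanSpace ℝ (Fin n))) :=
  absorbent_nhds_zero (nhds_zero K)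

theorem isG_gf (K : Body n) : IsG (gf K) where
  add := gauge_add_le K.1.convex (absorbent K)
  smul := by
    intro c hc x
    unfold gf
    rw [gauge_smul_of_nonneg hc, smul_eq_mul]
  lower := by
    obtain ⟨R, hR, hKR⟩ := K.1.isCompact.isBounded.subset_closedBall_lt 0
      (0 : EuclideanSpace ℝ (Fin n))
    refine ⟨R⁻¹, inv_pos.2 hR, fun x => ?_⟩
    have := le_gauge_of_subset_closedBall (absorbent K) hR.le hKR (x := x)
    rwa [div_eq_inv_mul] at this
  upper := by
    obtain ⟨r, hr, hrK⟩ := Metric.mem_nhds_iff.1 (nhds_zero K)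
    refine ⟨r⁻¹, inv_pos.2 hr, fun x => ?_⟩
    have := mul_gauge_le_norm hrK (x := x)
    unfold gf
    rw [inv_mul_eq_div, le_div_iff₀ hr, mul_comm]
    exact this

theorem mem_iff (K : Body n) (x : EuclideanSpace ℝ (Fin n)) :
    x ∈ (K.1 : Set (EuclideanSpace ℝ (Fin n))) ↔ gf K x ≤ 1 := by
  unfold gf
  rw [gauge_le_one_iff_mem_closure K.1.convex (nhds_zero K), K.1.isClosed.closure_eq]

theorem IsG.zero {E : Type*} [NormedAddCommGroup E] [InnerProductSpace ℝ E] {P : E → ℝ}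
    (hP : IsG P) : P 0 = 0 := by
  have := hP.smul 0 le_rfl 0
  rwa [zero_smul, zero_mul] at this

theorem IsG.cont {E : Type*} [NormedAddCommGroup E] [InnerProductSpace ℝ E] {P : E → ℝ}
    (hP : IsG P) : Continuous P := by
  obtain ⟨C, hC, hup⟩ := hP.upper
  have h1 : LipschitzWith (Real.toNNReal C) P := by
    apply LipschitzWith.of_dist_le_mul
    intro x y
    rw [Real.coe_toNNReal C hC.le, Real.dist_eq, dist_eq_norm, abs_le]
    have h1 := hP.add (x - y) y
    have h2 := hP.add (y - x) x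
    have h3 := hup (x - y)
    have h4 := hup (y - x)
    rw [sub_add_cancel] at h1 h2
    rw [norm_sub_rev y x] at h4
    constructor <;> linarith
  exact h1.continuous

theorem exists_body (P : EuclideanSpace ℝ (Fin n) → ℝ) (hP : IsG P) : ∃ K : Body n, gf K = P := by
  obtain ⟨c, hc, hlow⟩ := hP.lower
  obtain ⟨C, hC, hup⟩ := hP.upper
  have hconv : Convex ℝ {x | P x ≤ 1} := by
    intro x hx y hy a b ha hb hab
    have h1 := hP.add (a • x) (b • y)
    rw [hP.smul a ha, hP.smul b hb] at h1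
    have h2 : a * P x ≤ a * 1 := mul_le_mul_of_nonneg_left hx ha
    have h3 : b * P y ≤ b * 1 := mul_le_mul_of_nonneg_left hy hb
    change P (a • x + b • y) ≤ 1
    linarith
  have hclosed : IsClosed {x | P x ≤ 1} := isClosed_le (IsG.cont hP) continuous_const
  have hbdd : Bornology.IsBounded {x | P x ≤ 1} := by
    refine (Metric.isBounded_closedBall (x := (0 : EuclideanSpace ℝ (Fin n)))
      (r := c⁻¹)).subset ?_
    intro x hx
    rw [mem_closedBall_zero_iff]
    have h1 := hlow x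
    have h2 : c * ‖x‖ ≤ 1 := h1.trans hx
    rw [← one_div, le_div_iff₀ hc, mul_comm]
    exact h2
  have hball : Metric.ball (0 : EuclideanSpace ℝ (Fin n)) C⁻¹ ⊆ {x | P x ≤ 1} := by
    intro x hx
    rw [mem_ball_zero_iff] at hx
    have h1 := hup x
    have h2 : C * ‖x‖ ≤ C * C⁻¹ := mul_le_mul_of_nonneg_left hx.le hC.le
    rw [mul_inv_cancel₀ hC.ne'] at h2
    exact h1.trans h2
  let K : ConvexBody (EuclideanSpace ℝ (Fin n)) :=
    { carrier := {x | P x ≤ 1}
      convex' := hconv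
      isCompact' := Metric.isCompact_of_isClosed_isBounded hclosed hbdd
      nonempty' := ⟨0, by
        change P 0 ≤ 1
        rw [IsG.zero hP]
        exact zero_le_one⟩ }
  have hK0 : (0 : EuclideanSpace ℝ (Fin n)) ∈ interior (K : Set (EuclideanSpace ℝ (Fin n))) :=
    mem_interior.2 ⟨_, hball, Metric.isOpen_ball, Metric.mem_ball_self (inv_pos.2 hC)⟩
  refine ⟨⟨K, hK0⟩, ?_⟩
  funext x
  have hset : ∀ r : ℝ, 0 < r → (x ∈ r • {x | P x ≤ 1} ↔ P x ≤ r) := by
    intro r hr
    rw [mem_smul_set_iff_inv_smul_mem₀ hr.ne']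
    change P (r⁻¹ • x) ≤ 1 ↔ _
    rw [hP.smul _ (inv_pos.2 hr).le, inv_mul_le_iff₀ hr, mul_one]
  have hP0 : 0 ≤ P x := le_trans (mul_nonneg hc.le (norm_nonneg x)) (hlow x)
  change gauge {x | P x ≤ 1} x = P x
  rw [gauge_def]
  have h1 : {r : ℝ | r ∈ Ioi 0 ∧ x ∈ r • {x | P x ≤ 1}} = Ioi 0 ∩ Ici (P x) := by
    ext r
    constructor
    · rintro ⟨hr, h⟩
      exact ⟨hr, (hset r hr).1 h⟩
    · rintro ⟨hr, h⟩
      exact ⟨hr, (hset r hr).2 h⟩
  have h2 : {r ∈ Ioi (0 : ℝ) | x ∈ r • {x | P x ≤ 1}} = Ioi 0 ∩ Ici (P x) := h1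
  rw [h2]
  apply le_antisymm
  · apply le_of_forall_pos_le_add
    intro ε hε
    refine csInf_le ⟨0, fun r hr => le_of_lt hr.1⟩ ⟨?_, ?_⟩
    · change 0 < P x + ε
      linarith
    · change P x ≤ P x + ε
      linarith
  · refine le_csInf ⟨P x + 1, ?_, ?_⟩ fun r hr => hr.2
    · change 0 < P x + 1
      linarith
    · change P x ≤ P x + 1
      linarith

/-- Module GB. -/
theorem GB : GBStatement := by
  refine ⟨fun n K => isG_gf K, ?_, ?_, fun n P hP => exists_body P hP⟩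
  · intro n K L h
    apply Subtype.ext
    apply SetLike.coe_injective
    ext x
    rw [mem_iff, mem_iff, h]
  · intro n K L h
    ext x
    rw [mem_iff, h x, ← mem_iff, Set.mem_neg]

end Pool.Agent.Lib.MP_0b6b0e_gt.ZB.H87
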